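import Pool.Agent.V7H76.AD.Spec

set_option autoImplicit false

/-! Many terms in each dyadic scale, at the end of the construction (piece DENS). -/

open Finset
open scoped Classical

namespace Pool.Agent.V7H84.AD

open Pool.Agent.V7H76.AD

/-- if every fibre over `t` has at least `P` elements then `P * t.card ≤ s.card` -/
theorem mul_card_le {α β : Type} [DecidableEq β] (s : Finset α) (t : Finset β) (f : α → β) (P : ℕ)
    (h : ∀ c ∈ t, P ≤ (s.filter (fun x => f x = c)).card) : P * t.card ≤ s.card := by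
  have h1 : (s.filter (fun x => f x ∈ t)).card =
      ∑ c ∈ t, ((s.filter (fun x => f x ∈ t)).filter (fun x => f x = c)).card :=
    Finset.card_eq_sum_card_fiberwise (fun x hx => by
      have := (Finset.mem_filter.1 hx).2
      exact this)
  have h2 : ∀ c ∈ t, P ≤ ((s.filter (fun x => f x ∈ t)).filter (fun x => f x = c)).card := by
    intro c hc
    refine (h c hc).trans (Finset.card_le_card ?_)
    intro x hx
    rw [Finset.mem_filter] at hx
    rw [Finset.mem_filter, Finset.mem_filter]
    exact ⟨⟨hx.1, by rw [hx.2]; exact hc⟩, hx.2⟩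
  calc P * t.card = ∑ _c ∈ t, P := by rw [Finset.sum_const, smul_eq_mul, mul_comm]
    _ ≤ ∑ c ∈ t, ((s.filter (fun x => f x ∈ t)).filter (fun x => f x = c)).card :=
        Finset.sum_le_sum h2
    _ = (s.filter (fun x => f x ∈ t)).card := h1.symm
    _ ≤ s.card := Finset.card_filter_le _ _

theorem t_DENS (h : S_CNT) : S_DENS := by
  intro P m n0 i0 q0 L A b0 hpar t b lab U hinv i hi1 hi2
  have hP : 1 ≤ P := by rw [hpar.hP]; exact Nat.one_le_two_pow
  have hH : 0 < 32 * P * P := by positivity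
  obtain ⟨a, ha⟩ : ∃ a, a = q0 * 2 ^ (i - i0) := ⟨_, rfl⟩
  have haH : a * (32 * P * P) = 2 ^ i := by
    rw [ha]
    calc q0 * 2 ^ (i - i0) * (32 * P * P) = q0 * (32 * P * P) * 2 ^ (i - i0) := by ring
      _ = 2 ^ i0 * 2 ^ (i - i0) := by rw [hpar.hq]
      _ = 2 ^ i := by rw [← pow_add]; congr 1; omega
  have ha2 : 2 * a ≤ q0 * 2 ^ L := by
    rw [ha]
    calc 2 * (q0 * 2 ^ (i - i0)) = q0 * 2 ^ (i - i0 + 1) := by ring
      _ ≤ q0 * 2 ^ L := Nat.mul_le_mul_left _ (Nat.pow_le_pow_right (by norm_num) (by omega))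
  have ha0 : q0 ≤ a := by
    rw [ha]
    exact Nat.le_mul_of_pos_right _ (by positivity)
  have hcell : ∀ c, c ∈ Ico a (2 * a) → c * (2 * P) * (16 * P) = c * (32 * P * P) := by
    intro c _
    ring
  have h2i : 2 ^ (i + 1) = 2 * a * (32 * P * P) := by rw [pow_succ, ← haH]; ring
  -- few blocked cells for each label
  have key1 : ∀ α ∈ A, 16 * ((Ico a (2 * a)).filter
      (fun c => NotOK P b (n0 + t * P) c α)).card ≤ a := by
    intro α hα
    have hcnt := h P m n0 i0 q0 L A b0 hpar t (q0 * 2 ^ L) b lab U hinv i hi1 hi2 α hα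
    set Z := (Ico (2 ^ i) (2 ^ (i + 1))).filter
      (fun z : ℕ => Cls (16 * P) α z ∧ Dg b (n0 + t * P) z) with hZ
    set N := (Ico a (2 * a)).filter (fun c => NotOK P b (n0 + t * P) c α) with hN
    set W := (Ico (a * (2 * P)) (2 * a * (2 * P))).filter
      (fun w => ∃ z : ℕ, z / (16 * P) = w ∧ Cls (16 * P) α z ∧ Dg b (n0 + t * P) z) with hW
    have h1 : P * N.card ≤ W.card := by
      refine mul_card_le W N (fun w => w / (2 * P)) P ?_
      intro c hc
      rw [hN, Finset.mem_filter, Finset.mem_Ico] at hc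
      obtain ⟨⟨hc1, hc2⟩, hc3⟩ := hc
      unfold NotOK at hc3
      refine hc3.le.trans (Finset.card_le_card ?_)
      intro w hw
      rw [Finset.mem_filter, Finset.mem_Ico] at hw
      obtain ⟨⟨hw1, hw2⟩, hw3⟩ := hw
      rw [Finset.mem_filter, hW, Finset.mem_filter, Finset.mem_Ico]
      have e1 : a * (2 * P) ≤ c * (2 * P) := Nat.mul_le_mul_right _ hc1
      have e2 : (c + 1) * (2 * P) ≤ 2 * a * (2 * P) := Nat.mul_le_mul_right _ (by omega)
      refine ⟨⟨⟨by omega, by omega⟩, hw3⟩, ?_⟩
      exact Nat.div_eq_of_lt_le hw1 hw2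
    have h2 : W.card ≤ Z.card := by
      refine (Finset.card_le_card (t := Z.image (fun z => z / (16 * P))) ?_).trans
        Finset.card_image_le
      intro w hw
      rw [hW, Finset.mem_filter, Finset.mem_Ico] at hw
      obtain ⟨⟨hw1, hw2⟩, z, hz1, hz2⟩ := hw
      rw [Finset.mem_image]
      refine ⟨z, ?_, hz1⟩
      rw [hZ, Finset.mem_filter, Finset.mem_Ico]
      have hM : 0 < 16 * P := by positivity
      have e1 : w * (16 * P) ≤ z := by rw [← hz1]; exact Nat.div_mul_le_self _ _
      have e2 : z < (w + 1) * (16 * P) := by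
        exact (Nat.div_lt_iff_lt_mul hM).1 (by omega)
      have e3 : a * (2 * P) * (16 * P) ≤ w * (16 * P) := Nat.mul_le_mul_right _ hw1
      have e4 : (w + 1) * (16 * P) ≤ 2 * a * (2 * P) * (16 * P) :=
        Nat.mul_le_mul_right _ hw2
      have e5 : a * (2 * P) * (16 * P) = 2 ^ i := by rw [← haH]; ring
      have e6 : 2 * a * (2 * P) * (16 * P) = 2 ^ (i + 1) := by rw [h2i]; ring
      exact ⟨⟨by omega, by omega⟩, hz2⟩
    have h3 : 32 * P * P * (16 * N.card) ≤ 32 * P * P * a := by
      calc 32 * P * P * (16 * N.card) = 32 * (16 * P) * (P * N.card) := by ring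
        _ ≤ 32 * (16 * P) * Z.card := Nat.mul_le_mul_left _ (h1.trans h2)
        _ ≤ 2 ^ i := hcnt
        _ = 32 * P * P * a := by rw [← haH]; ring
    exact Nat.le_of_mul_le_mul_left h3 hH
  -- few unused cells
  set V := (Ico a (2 * a)).filter (fun c => c ∉ U) with hV
  have hA0 : 0 < A.card := by
    have := hpar.hN
    omega
  have key2 : 8 * V.card ≤ a := by
    have h1 : V.card * A.card ≤ ∑ c ∈ V, 2 * (A.filter (fun α => NotOK P b (n0 + t * P) c α)).card := by
      rw [← smul_eq_mul, ← Finset.sum_const]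
      refine Finset.sum_le_sum fun c hc => ?_
      rw [hV, Finset.mem_filter, Finset.mem_Ico] at hc
      exact (hinv.Un c (ha0.trans hc.1.1) (lt_of_lt_of_le hc.1.2 ha2) hc.2).le
    have h2 : ∑ c ∈ V, (A.filter (fun α => NotOK P b (n0 + t * P) c α)).card =
        ∑ α ∈ A, (V.filter (fun c => NotOK P b (n0 + t * P) c α)).card := by
      simp only [Finset.card_filter]
      exact Finset.sum_comm
    have h3 : ∀ α ∈ A, 16 * (V.filter (fun c => NotOK P b (n0 + t * P) c α)).card ≤ a := by
      intro α hα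
      refine (Nat.mul_le_mul_left 16 (Finset.card_le_card ?_)).trans (key1 α hα)
      intro c hc
      rw [Finset.mem_filter, hV, Finset.mem_filter] at hc
      rw [Finset.mem_filter]
      exact ⟨hc.1.1, hc.2⟩
    have h4 : 16 * ∑ α ∈ A, (V.filter (fun c => NotOK P b (n0 + t * P) c α)).card ≤
        A.card * a := by
      rw [Finset.mul_sum]
      refine (Finset.sum_le_sum h3).trans (le_of_eq ?_)
      rw [Finset.sum_const, smul_eq_mul]
    rw [← Finset.mul_sum, h2] at h1
    have h5 : A.card * (8 * V.card) ≤ A.card * a := by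
      calc A.card * (8 * V.card) = 8 * (V.card * A.card) := by ring
        _ ≤ 8 * (2 * ∑ α ∈ A, (V.filter (fun c => NotOK P b (n0 + t * P) c α)).card) :=
            Nat.mul_le_mul_left _ h1
        _ = 16 * ∑ α ∈ A, (V.filter (fun c => NotOK P b (n0 + t * P) c α)).card := by ring
        _ ≤ A.card * a := h4
    exact Nat.le_of_mul_le_mul_left h5 hA0
  -- many used cells
  set R := (Ico a (2 * a)).filter (fun c => c ∈ U) with hR
  have hRV : R.card + V.card = a := by
    rw [hR, hV, Finset.card_filter_add_card_filter_not, Nat.card_Ico]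
    omega
  have key3 : P * R.card ≤ ((range (t * P)).filter
      (fun j => 2 ^ i ≤ b (n0 + j) ∧ b (n0 + j) < 2 ^ (i + 1))).card := by
    refine mul_card_le _ R (fun j => b (n0 + j) / (32 * P * P)) P ?_
    intro c hc
    rw [hR, Finset.mem_filter, Finset.mem_Ico] at hc
    obtain ⟨⟨hc1, hc2⟩, hc3⟩ := hc
    refine (hinv.Ucnt c hc3).trans (Finset.card_le_card ?_)
    intro j hj
    rw [Finset.mem_filter] at hj
    rw [Finset.mem_filter, Finset.mem_filter]
    have e1 : c * (32 * P * P) ≤ b (n0 + j) := by rw [← hj.2]; exact Nat.div_mul_le_self _ _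
    have e2 : b (n0 + j) < (c + 1) * (32 * P * P) := by
      exact (Nat.div_lt_iff_lt_mul hH).1 (by omega)
    have e3 : a * (32 * P * P) ≤ c * (32 * P * P) := Nat.mul_le_mul_right _ hc1
    have e4 : (c + 1) * (32 * P * P) ≤ 2 * a * (32 * P * P) := Nat.mul_le_mul_right _ hc2
    exact ⟨⟨hj.1, by omega, by omega⟩, hj.2⟩
  calc 2 ^ i = 32 * P * P * a := by rw [← haH]; ring
    _ ≤ 32 * P * P * (2 * R.card) := Nat.mul_le_mul_left _ (by omega)
    _ = 64 * P * (P * R.card) := by ring
    _ ≤ _ := Nat.mul_le_mul_left _ key3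

end Pool.Agent.V7H84.AD
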